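import Pool.Agent.AbS.Main2

/-!
MP_7fa120_al: the orders of the abelian subgroups of the symmetric groups.
-/

set_option autoImplicit false

namespace Pool.Agent.Results.MP_7fa120_al.AbelianSubgroups

open Filter Topology Equiv Pool.Agent.AbS

theorem result : ∀ q : ℕ, q.Prime →
    (∀ δ : ℝ, 0 < δ → Tendsto (fun n : ℕ =>
      (Nat.card {H : Subgroup (Perm (Fin n)) // AbGe q H ∧
        ∃ k : ℕ, Nat.card H = q ^ k ∧ |(k : ℝ) - n / (2 * q)| ≤ (n : ℝ) ^ (1 / 2 + δ)} : ℝ) /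
      (Nat.card {H : Subgroup (Perm (Fin n)) // AbGe q H} : ℝ)) atTop (𝓝 1)) ∧
    (∀ a : ℕ, Tendsto (fun n : ℕ => dens q n (q ^ a)) atTop (𝓝 1)) ∧
    ∀ m : ℕ, (∀ a : ℕ, m ≠ q ^ a) → Tendsto (fun n : ℕ => dens q n m) atTop (𝓝 0) :=
  fun q hq => ⟨fun δ hδ => order_tendsto q hq δ hδ, main q hq⟩

end Pool.Agent.Results.MP_7fa120_al.AbelianSubgroups
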