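import Pool.Agent.FuS.MainF

/-!
MP_7fa120_al: the negated form of Q1, for all subgroups of the symmetric groups.

`d(n, m)` is written out: the number of the subgroups `H` of `Perm (Fin n)` with `m ∣ |H|`, divided by the number of all subgroups.
-/

set_option autoImplicit false

namespace Pool.Agent.Results.MP_7fa120_al.AllSubgroups

open Equiv Filter Topology

theorem result :
    -- negated form of Q1: for some `m ≥ 1` (an odd prime) `d(n, m)` does not converge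
    (∃ m : ℕ, 1 ≤ m ∧ m.Prime ∧ m ≠ 2 ∧ ¬ ∃ L : ℝ, Tendsto (fun n : ℕ =>
      (Nat.card {H : Subgroup (Perm (Fin n)) // m ∣ Nat.card H} : ℝ) / (Nat.card (Subgroup (Perm (Fin n))) : ℝ)) atTop (𝓝 L)) ∧
    -- `d(n, 2 ^ a)` tends to `1`
    (∀ a : ℕ, Tendsto (fun n : ℕ =>
      (Nat.card {H : Subgroup (Perm (Fin n)) // 2 ^ a ∣ Nat.card H} : ℝ) / (Nat.card (Subgroup (Perm (Fin n))) : ℝ)) atTop (𝓝 1)) ∧
    -- along even `n`, almost all subgroups are 2-groups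
    Tendsto (fun n : ℕ => (Nat.card {H : Subgroup (Perm (Fin (2 * n))) // ∃ k : ℕ, Nat.card H = 2 ^ k} : ℝ) /
      (Nat.card (Subgroup (Perm (Fin (2 * n)))) : ℝ)) atTop (𝓝 1) ∧
    -- so along even `n`, `d(n, m)` tends to `0` if `m` is not a power of two
    (∀ m : ℕ, (∀ a : ℕ, m ≠ 2 ^ a) → Tendsto (fun n : ℕ =>
      (Nat.card {H : Subgroup (Perm (Fin (2 * n))) // m ∣ Nat.card H} : ℝ) /
        (Nat.card (Subgroup (Perm (Fin (2 * n)))) : ℝ)) atTop (𝓝 0)) ∧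
    -- along `n = 3 mod 4` at least `1 / 4 - o(1)` of the subgroups are not 2-groups
    ∀ ε : ℝ, 0 < ε → ∀ᶠ n : ℕ in atTop, n % 4 = 3 →
      (1 / 4 - ε) * (Nat.card (Subgroup (Perm (Fin n))) : ℝ) ≤
        (Nat.card (Subgroup (Perm (Fin n))) : ℝ) -
          (Nat.card {H : Subgroup (Perm (Fin n)) // ∃ k : ℕ, Nat.card H = 2 ^ k} : ℝ) := by
  refine ⟨?_, Pool.Agent.FuS.all_pow, Pool.Agent.FuS.all_two, Pool.Agent.FuS.all_even, Pool.Agent.FuS.all_odd⟩
  obtain ⟨r, h1, h2, h3⟩ := Pool.Agent.FuS.all_no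
  exact ⟨r, h1.one_le, h1, h2, h3⟩

end Pool.Agent.Results.MP_7fa120_al.AllSubgroups
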