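import Pool.Agent.HeS.MainT
import Pool.Agent.HeS.Fam

/-!
MP_7fa120_al: hereditary families of subgroups of the symmetric groups; the negated form of Q1 holds for each of them.
-/

set_option autoImplicit false

namespace Pool.Agent.Results.MP_7fa120_al.HereditaryFamilies

open Equiv Filter Topology Pool.Agent.BdO Pool.Agent.GcS Pool.Agent.HeS

theorem result :
    (∀ (θ : ℕ) (P : ∀ n : ℕ, Subgroup (Perm (Fin n)) → Prop), Her θ P →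
      (∀ a : ℕ, Tendsto (fun n : ℕ => dens P n (2 ^ a)) atTop (𝓝 1)) ∧
      Tendsto (fun n : ℕ => (Pool.Agent.NilS.nTwo (2 * n) : ℝ) / nP P (2 * n)) atTop (𝓝 1) ∧
      (∀ m : ℕ, (∀ a : ℕ, m ≠ 2 ^ a) → Tendsto (fun n : ℕ => dens P (2 * n) m) atTop (𝓝 0)) ∧
      (∀ ε : ℝ, 0 < ε → ∀ᶠ n : ℕ in atTop, n % 4 = 3 →
        (1 / 4 - ε) * (nP P n : ℝ) ≤ (nP P n : ℝ) - Pool.Agent.NilS.nTwo n) ∧
      ∃ r : ℕ, r.Prime ∧ r ≠ 2 ∧ ¬ ∃ L : ℝ, Tendsto (fun n : ℕ => dens P n r) atTop (𝓝 L)) ∧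
    (∀ θ : ℕ, Her θ (fun n H => GcT (ell n) θ H)) ∧
    Her 0 (fun n (H : Subgroup (Perm (Fin n))) => Group.IsSolvable H) ∧
    (∀ θ : ℕ, Her θ (fun n (H : Subgroup (Perm (Fin n))) => Sb θ H)) ∧
    ∀ K : ℕ, 3 ≤ K → Her (Nat.log 2 K.factorial + 1) (fun n (H : Subgroup (Perm (Fin n))) => Bdd K H) :=
  ⟨fun _ _ h => ⟨her_pow h, her_two h, her_even h, her_odd h, her_no h⟩, her_gct, her_sol, her_sb, fun _ hK => her_bdd hK⟩

end Pool.Agent.Results.MP_7fa120_al.HereditaryFamilies
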