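import Pool.Agent.NilS.Main

/-!
MP_7fa120_al: almost all nilpotent subgroups of the symmetric groups are 2-groups.
-/

set_option autoImplicit false

namespace Pool.Agent.Results.MP_7fa120_al.NilpotentSubgroups

open Filter Topology Pool.Agent.NilS

theorem result :
    Tendsto (fun n : ℕ => (nTwo n : ℝ) / (nNil n : ℝ)) atTop (𝓝 1) ∧
    (∀ a : ℕ, Tendsto (fun n : ℕ => dens n (2 ^ a)) atTop (𝓝 1)) ∧
    ∀ m : ℕ, (∀ a : ℕ, m ≠ 2 ^ a) → Tendsto (fun n : ℕ => dens n m) atTop (𝓝 0) :=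
  ⟨main.1, fun a => main.2.1 _ ⟨a, rfl⟩, fun m hm => main.2.2 m (fun ⟨a, ha⟩ => hm a ha)⟩

end Pool.Agent.Results.MP_7fa120_al.NilpotentSubgroups
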